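import Pool.Agent.H12.QN.Stmts

/-!
# Board `qnb`, row WEA: affine change of variable
-/

set_option autoImplicit false

namespace Pool.QN

theorem wea_thm (hWEY : WEYStmt) : WEAStmt := by
  intro K d r X T
  have h := hWEY K K ((d : ℝ) * X + 2 * r * d * T) ((d : ℝ) ^ 2 * T) (le_refl _)
  have h2 : ∀ k : ℕ, ee (((r : ℝ) + d * k) * X + ((r : ℝ) + d * k) ^ 2 * T) =
      ee ((r : ℝ) * X + (r : ℝ) ^ 2 * T) *
        ee ((k : ℝ) * ((d : ℝ) * X + 2 * r * d * T) + (k : ℝ) ^ 2 * ((d : ℝ) ^ 2 * T)) := by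
    intro k
    unfold ee
    rw [← Complex.exp_add]
    congr 1
    push_cast
    ring
  have h3 : ‖ee ((r : ℝ) * X + (r : ℝ) ^ 2 * T)‖ = 1 := by
    unfold ee
    exact Complex.norm_exp_ofReal_mul_I _
  have h4 : ∑ k ∈ Finset.range K, ee (((r : ℝ) + d * k) * X + ((r : ℝ) + d * k) ^ 2 * T) =
      ee ((r : ℝ) * X + (r : ℝ) ^ 2 * T) * ∑ k ∈ Finset.range K,
        ee ((k : ℝ) * ((d : ℝ) * X + 2 * r * d * T) + (k : ℝ) ^ 2 * ((d : ℝ) ^ 2 * T)) := by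
    rw [Finset.mul_sum]
    exact Finset.sum_congr rfl (fun k _ => h2 k)
  rw [h4, norm_mul, h3, one_mul]
  exact h

end Pool.QN
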