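import Pool.Agent.H79.QN.Stmts3

/-!
# Board `qn`, row PWM: power mean inequality
-/

set_option autoImplicit false

namespace Pool.Agent.H79.QN

open Finset

theorem pwm : S_PWM := by
  intro L z u v
  let f : Option (Fin L × Bool) → ℝ := fun o => match o with
    | none => ‖z‖
    | some (j, true) => ‖u j‖
    | some (j, false) => ‖v j‖
  have hf0 : ∀ o, 0 ≤ f o := by
    intro o
    rcases o with _ | ⟨j, b⟩
    · exact norm_nonneg _
    · cases b <;> exact norm_nonneg _
  have hsum : ∀ k : ℕ, ∑ o, f o ^ k = ‖z‖ ^ k + ∑ j ∈ range L, (‖u j‖ ^ k + ‖v j‖ ^ k) := by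
    intro k
    rw [Fintype.sum_option, Fintype.sum_prod_type]
    congr 1
    rw [← Fin.sum_univ_eq_sum_range (fun j => ‖u j‖ ^ k + ‖v j‖ ^ k)]
    exact Finset.sum_congr rfl (fun j _ => by rw [Fintype.sum_bool])
  have hcard : ((univ : Finset (Option (Fin L × Bool))).card : ℝ) = 2 * (L : ℝ) + 1 := by
    rw [Finset.card_univ, Fintype.card_option, Fintype.card_prod, Fintype.card_fin,
      Fintype.card_bool]
    push_cast
    ring
  have h2 : (∑ o, f o) ^ 4 ≤ (2 * (L : ℝ) + 1) ^ 3 * ∑ o, f o ^ 4 := by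
    have h3 := pow_sum_div_card_le_sum_pow (s := (univ : Finset (Option (Fin L × Bool))))
      (f := f) (fun o _ => hf0 o) 3
    rw [hcard, div_le_iff₀ (by positivity), mul_comm] at h3
    exact h3
  have h4 : ‖z + ∑ j ∈ range L, (u j + v j)‖ ≤ ∑ o, f o := by
    have h5 := hsum 1
    simp only [pow_one] at h5
    rw [h5]
    refine (norm_add_le _ _).trans (add_le_add (le_refl _) ?_)
    exact (norm_sum_le _ _).trans (Finset.sum_le_sum (fun j _ => norm_add_le _ _))
  calc ‖z + ∑ j ∈ range L, (u j + v j)‖ ^ 4 ≤ (∑ o, f o) ^ 4 :=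
        pow_le_pow_left₀ (norm_nonneg _) h4 4
    _ ≤ (2 * (L : ℝ) + 1) ^ 3 * ∑ o, f o ^ 4 := h2
    _ = _ := by rw [hsum 4]

end Pool.Agent.H79.QN
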