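import Pool.Agent.H79.QN.Stmts

/-!
# Board `qn`, row SDT: second derivative test
-/

set_option autoImplicit false

namespace Pool.Agent.H79.QN

lemma sdt_slope {g : ℝ → ℝ} (hg : Differentiable ℝ g) {a b μ : ℝ}
    (h : ∀ x ∈ Set.Icc a b, μ ≤ deriv g x) : ∀ x ∈ Set.Icc a b, ∀ y ∈ Set.Icc a b, x ≤ y →
    μ * (y - x) ≤ g y - g x := by
  intro x hx y hy hxy
  exact (convex_Icc a b).mul_sub_le_image_sub_of_le_deriv hg.continuous.continuousOn
    hg.differentiableOn (fun z hz => h z (interior_subset hz)) x hx y hy hxy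

lemma sdt_pt {g : ℝ → ℝ} (hg : Differentiable ℝ g) {a b μ : ℝ} (hab : a ≤ b) (hμ : 0 < μ)
    (h : ∀ x ∈ Set.Icc a b, μ ≤ deriv g x) :
    ∃ x₀ ∈ Set.Icc a b, ∀ x ∈ Set.Icc a b, μ * |x - x₀| ≤ |g x| := by
  have hs := sdt_slope hg h
  rcases le_or_gt 0 (g a) with ha | ha
  · refine ⟨a, ⟨le_refl _, hab⟩, fun x hx => ?_⟩
    have h1 := hs a ⟨le_refl _, hab⟩ x hx hx.1
    have h2 : 0 ≤ μ * (x - a) := mul_nonneg hμ.le (by linarith [hx.1])
    rw [abs_of_nonneg (by linarith [hx.1] : 0 ≤ x - a), abs_of_nonneg (by linarith : 0 ≤ g x)]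
    linarith
  rcases le_or_gt (g b) 0 with hb | hb
  · refine ⟨b, ⟨hab, le_refl _⟩, fun x hx => ?_⟩
    have h1 := hs x hx b ⟨hab, le_refl _⟩ hx.2
    have h2 : 0 ≤ μ * (b - x) := mul_nonneg hμ.le (by linarith [hx.2])
    rw [abs_of_nonpos (by linarith [hx.2] : x - b ≤ 0), abs_of_nonpos (by linarith : g x ≤ 0)]
    linarith
  obtain ⟨x₀, hx₀, hz⟩ := intermediate_value_Icc hab hg.continuous.continuousOn
    (show (0 : ℝ) ∈ Set.Icc (g a) (g b) from ⟨ha.le, hb.le⟩)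
  refine ⟨x₀, hx₀, fun x hx => ?_⟩
  rcases le_total x x₀ with hl | hl
  · have h1 := hs x hx x₀ hx₀ hl
    have h2 : 0 ≤ μ * (x₀ - x) := mul_nonneg hμ.le (by linarith)
    rw [abs_of_nonpos (by linarith : x - x₀ ≤ 0), abs_of_nonpos (by linarith : g x ≤ 0)]
    linarith
  · have h1 := hs x₀ hx₀ x hx hl
    have h2 : 0 ≤ μ * (x - x₀) := mul_nonneg hμ.le (by linarith)
    rw [abs_of_nonneg (by linarith : 0 ≤ x - x₀), abs_of_nonneg (by linarith : 0 ≤ g x)]
    linarith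

lemma sdt_norm (t : ℝ) : ‖e t‖ = 1 := by
  unfold e
  rw [Complex.norm_exp]
  simp

lemma sdt_cont {θ : ℝ → ℝ} (h : Continuous θ) : Continuous (fun x => e (θ x)) := by
  unfold e
  fun_prop

theorem sdt (hFDT : S_FDT) : S_SDT := by
  intro θ a b μ hab hθ hμ h
  have h21 : ContDiff ℝ (1 + 1) θ := by
    rw [one_add_one_eq_two]; exact hθ
  have hd : ContDiff ℝ 1 (deriv θ) := (contDiff_succ_iff_deriv.1 h21).2.2
  have hd1 : Differentiable ℝ (deriv θ) := hd.differentiable one_ne_zero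
  have hc2 : Continuous (deriv (deriv θ)) := hd.continuous_deriv (le_refl _)
  have hsgn : (∀ x ∈ Set.Icc a b, μ ≤ deriv (deriv θ) x) ∨
      (∀ x ∈ Set.Icc a b, deriv (deriv θ) x ≤ -μ) := by
    by_contra hcon
    push Not at hcon
    obtain ⟨⟨x, hx, hx1⟩, ⟨y, hy, hy1⟩⟩ := hcon
    have h1 : deriv (deriv θ) x ≤ -μ := by
      rcases le_abs.1 (h x hx) with h2 | h2 <;> linarith
    have h3 : μ ≤ deriv (deriv θ) y := by
      rcases le_abs.1 (h y hy) with h2 | h2 <;> linarith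
    obtain ⟨z, hz, hz0⟩ := isPreconnected_Icc.intermediate_value hx hy hc2.continuousOn
      (show (0 : ℝ) ∈ Set.Icc (deriv (deriv θ) x) (deriv (deriv θ) y) from
        ⟨by linarith, by linarith⟩)
    have h4 := h z hz
    rw [hz0, abs_zero] at h4
    linarith
  have hneg : ∀ x, deriv (fun y => -deriv θ y) x = -deriv (deriv θ) x := fun x => deriv.fun_neg
  have hnd : Differentiable ℝ (fun y => -deriv θ y) := hd1.fun_neg
  have hpt : ∃ x₀ ∈ Set.Icc a b, ∀ x ∈ Set.Icc a b, μ * |x - x₀| ≤ |deriv θ x| := by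
    rcases hsgn with hs | hs
    · exact sdt_pt hd1 hab hμ hs
    · obtain ⟨x₀, hx₀, h1⟩ := sdt_pt hnd hab hμ (fun x hx => by
        rw [hneg x]; linarith [hs x hx])
      exact ⟨x₀, hx₀, fun x hx => by simpa [abs_neg] using h1 x hx⟩
  have hmono : MonotoneOn (deriv θ) (Set.Icc a b) ∨ AntitoneOn (deriv θ) (Set.Icc a b) := by
    rcases hsgn with hs | hs
    · left
      intro x hx y hy hxy
      have h1 := sdt_slope hd1 hs x hx y hy hxy
      have h2 : 0 ≤ μ * (y - x) := mul_nonneg hμ.le (by linarith)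
      linarith
    · right
      intro x hx y hy hxy
      have h1 := sdt_slope hnd (μ := μ) (fun z hz => by
        rw [hneg z]; linarith [hs z hz]) x hx y hy hxy
      have h2 : 0 ≤ μ * (y - x) := mul_nonneg hμ.le (by linarith)
      linarith
  have hsq : 0 < Real.sqrt μ := Real.sqrt_pos.2 hμ
  have hmul : μ * (1 / Real.sqrt μ) = Real.sqrt μ := by
    rw [mul_one_div, Real.div_sqrt]
  have key : ∀ p q : ℝ, a ≤ p → p ≤ q → q ≤ b →
      (∀ x ∈ Set.Icc p q, Real.sqrt μ ≤ |deriv θ x|) →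
      ‖∫ x in p..q, e (θ x)‖ ≤ 1 / Real.sqrt μ := by
    intro p q hp hpq hq hx
    have hsub : Set.Icc p q ⊆ Set.Icc a b := Set.Icc_subset_Icc hp hq
    exact hFDT θ p q (Real.sqrt μ) hpq hθ
      (hmono.imp (fun h => h.mono hsub) (fun h => h.mono hsub)) hsq hx
  obtain ⟨x₀, hx₀, hlow⟩ := hpt
  obtain ⟨hx₁, hx₂⟩ := hx₀
  set δ : ℝ := 1 / Real.sqrt μ with hδ
  have hδ0 : 0 < δ := by positivity
  have hlow2 : ∀ x ∈ Set.Icc a b, δ ≤ |x - x₀| → Real.sqrt μ ≤ |deriv θ x| := by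
    intro x hx h1
    have h2 := hlow x hx
    have h3 : μ * δ ≤ μ * |x - x₀| := mul_le_mul_of_nonneg_left h1 hμ.le
    rw [hmul] at h3
    linarith
  obtain ⟨c, hac, hcx, hcδ, hI1⟩ : ∃ c : ℝ, a ≤ c ∧ c ≤ x₀ ∧ x₀ - δ ≤ c ∧
      ‖∫ x in a..c, e (θ x)‖ ≤ 1 / Real.sqrt μ := by
    rcases le_total (x₀ - δ) a with h1 | h1
    · refine ⟨a, le_refl _, hx₁, h1, ?_⟩
      rw [intervalIntegral.integral_same, norm_zero]
      exact hδ0.le
    · refine ⟨x₀ - δ, h1, by linarith, le_refl _, ?_⟩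
      refine key a (x₀ - δ) (le_refl _) h1 (by linarith) (fun x hx => ?_)
      refine hlow2 x ⟨hx.1, by linarith [hx.2]⟩ ?_
      rw [abs_of_nonpos (by linarith [hx.2] : x - x₀ ≤ 0)]
      linarith [hx.2]
  obtain ⟨d, hdb, hdx, hdδ, hI3⟩ : ∃ d : ℝ, d ≤ b ∧ x₀ ≤ d ∧ d ≤ x₀ + δ ∧
      ‖∫ x in d..b, e (θ x)‖ ≤ 1 / Real.sqrt μ := by
    rcases le_total b (x₀ + δ) with h1 | h1
    · refine ⟨b, le_refl _, hx₂, h1, ?_⟩
      rw [intervalIntegral.integral_same, norm_zero]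
      exact hδ0.le
    · refine ⟨x₀ + δ, h1, by linarith, le_refl _, ?_⟩
      refine key (x₀ + δ) b (by linarith) h1 (le_refl _) (fun x hx => ?_)
      refine hlow2 x ⟨by linarith [hx.1], hx.2⟩ ?_
      rw [abs_of_nonneg (by linarith [hx.1] : 0 ≤ x - x₀)]
      linarith [hx.1]
  have hI2 : ‖∫ x in c..d, e (θ x)‖ ≤ 1 * |d - c| :=
    intervalIntegral.norm_integral_le_of_norm_le_const (fun x _ => (sdt_norm (θ x)).le)
  rw [one_mul, abs_of_nonneg (by linarith : 0 ≤ d - c)] at hI2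
  have hci : ∀ p q : ℝ, IntervalIntegrable (fun x => e (θ x)) MeasureTheory.volume p q :=
    fun p q => (sdt_cont hθ.continuous).intervalIntegrable p q
  have hsum : ∫ x in a..b, e (θ x) =
      (∫ x in a..c, e (θ x)) + (∫ x in c..d, e (θ x)) + ∫ x in d..b, e (θ x) := by
    rw [intervalIntegral.integral_add_adjacent_intervals (hci a c) (hci c d),
      intervalIntegral.integral_add_adjacent_intervals (hci a d) (hci d b)]
  rw [hsum]
  have h8 : 8 / Real.sqrt μ = 8 * δ := by rw [hδ]; ring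
  rw [h8]
  refine (norm_add_le _ _).trans ?_
  have h9 := norm_add_le (∫ x in a..c, e (θ x)) (∫ x in c..d, e (θ x))
  linarith

end Pool.Agent.H79.QN
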